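import Pool.Agent.FGT.Stmts

/-!
# Squad FGT, row FOS (helper44): subgroups of amenable groups are amenable
-/

set_option autoImplicit false

namespace Pool.Agent.FGT.H44

open Filter Topology Pool.Agent.H22.CIG Pool.Agent.H67.CIP Pool.Agent.H50.CIG MeasureTheory
open Pool.Agent.FGT

universe u

theorem fos : FosStmt.{u} := by
  classical
  intro G _ hG H S ε hε
  obtain ⟨F, hFne, hF⟩ := hG (S.image (fun h : H => (h : G))) (ε / (S.card + 1)) (by positivity)
  have hbad : ∀ s ∈ S, ((F.filter (fun g => (s : G) * g ∉ F)).card : ℝ)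
      ≤ ε / (S.card + 1) * F.card := by
    intro s hs
    have h1 := hF (s : G) (Finset.mem_image_of_mem _ hs)
    have e : {g : G | g ∈ F ∧ (s : G) * g ∉ F} = ↑(F.filter (fun g => (s : G) * g ∉ F)) := by
      ext g
      simp
    rw [e, Set.ncard_coe_finset] at h1
    exact h1
  have hmaps : ∀ (A : Finset G), A ⊆ F → Set.MapsTo (fun g : G => (QuotientGroup.mk g⁻¹ : G ⧸ H))
      (A : Set G) ((F.image (fun g : G => (QuotientGroup.mk g⁻¹ : G ⧸ H)) : Finset (G ⧸ H)) :
        Set (G ⧸ H)) := by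
    intro A hA g hg
    exact Finset.mem_coe.mpr (Finset.mem_image_of_mem _ (hA (Finset.mem_coe.mp hg)))
  have hfib : ∀ (A : Finset G), A ⊆ F → (A.card : ℝ)
      = ∑ q ∈ F.image (fun g : G => (QuotientGroup.mk g⁻¹ : G ⧸ H)),
        ((A.filter (fun g => (QuotientGroup.mk g⁻¹ : G ⧸ H) = q)).card : ℝ) := by
    intro A hA
    have h1 := Finset.card_eq_sum_card_fiberwise (hmaps A hA)
    exact_mod_cast h1
  have hsum : ∑ q ∈ F.image (fun g : G => (QuotientGroup.mk g⁻¹ : G ⧸ H)), ∑ s ∈ S,
        (((F.filter (fun g => (s : G) * g ∉ F)).filter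
          (fun g => (QuotientGroup.mk g⁻¹ : G ⧸ H) = q)).card : ℝ)
      ≤ ∑ q ∈ F.image (fun g : G => (QuotientGroup.mk g⁻¹ : G ⧸ H)),
        ε * ((F.filter (fun g => (QuotientGroup.mk g⁻¹ : G ⧸ H) = q)).card : ℝ) := by
    rw [Finset.sum_comm]
    calc ∑ s ∈ S, ∑ q ∈ F.image (fun g : G => (QuotientGroup.mk g⁻¹ : G ⧸ H)),
          (((F.filter (fun g => (s : G) * g ∉ F)).filter
            (fun g => (QuotientGroup.mk g⁻¹ : G ⧸ H) = q)).card : ℝ)
        = ∑ s ∈ S, ((F.filter (fun g => (s : G) * g ∉ F)).card : ℝ) :=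
          Finset.sum_congr rfl fun s _ => (hfib _ (Finset.filter_subset _ _)).symm
      _ ≤ ∑ s ∈ S, ε / (S.card + 1) * F.card := Finset.sum_le_sum hbad
      _ = (S.card : ℝ) * (ε / (S.card + 1) * F.card) := by
          rw [Finset.sum_const, nsmul_eq_mul]
      _ ≤ ε * F.card := by
          have h1 : (0 : ℝ) < (S.card : ℝ) + 1 := by positivity
          have h2 : (S.card : ℝ) * (ε / (S.card + 1) * F.card)
              = ε * F.card * ((S.card : ℝ) / (S.card + 1)) := by
            field_simp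
          have h3 : (S.card : ℝ) / (S.card + 1) ≤ 1 := by
            rw [div_le_one h1]
            linarith
          rw [h2]
          exact mul_le_of_le_one_right (by positivity) h3
      _ = _ := by
          rw [hfib F (Finset.Subset.refl _), Finset.mul_sum]
  obtain ⟨q, hq, hle⟩ := Finset.exists_le_of_sum_le (hFne.image _) hsum
  obtain ⟨t, ht, htq⟩ := Finset.mem_image.mp hq
  have hinj : Function.Injective (fun h : H => (h : G) * t) := by
    intro a b h
    exact Subtype.ext (mul_right_cancel h)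
  have hqh : ∀ h : H, (QuotientGroup.mk ((h : G) * t)⁻¹ : G ⧸ H) = q := by
    intro h
    rw [← htq]
    rw [QuotientGroup.eq]
    have e : (((h : G) * t)⁻¹)⁻¹ * t⁻¹ = (h : G) := by group
    rw [e]
    exact h.2
  obtain ⟨F', hF'⟩ : ∃ F' : Finset H, ∀ h : H, h ∈ F' ↔ (h : G) * t ∈ F :=
    ⟨F.preimage (fun h : H => (h : G) * t) hinj.injOn, fun h => Finset.mem_preimage⟩
  have hcard : F'.card = (F.filter (fun g => (QuotientGroup.mk g⁻¹ : G ⧸ H) = q)).card := by
    rw [← Finset.card_image_of_injective F' hinj]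
    congr 1
    ext g
    rw [Finset.mem_image, Finset.mem_filter]
    constructor
    · rintro ⟨h, hh, rfl⟩
      exact ⟨(hF' h).mp hh, hqh h⟩
    · rintro ⟨hg, hgq⟩
      rw [← htq, QuotientGroup.eq, inv_inv] at hgq
      refine ⟨⟨g * t⁻¹, hgq⟩, (hF' _).mpr ?_, ?_⟩
      · change g * t⁻¹ * t ∈ F
        rw [inv_mul_cancel_right]
        exact hg
      · change g * t⁻¹ * t = g
        rw [inv_mul_cancel_right]
  refine ⟨F', ⟨1, (hF' 1).mpr ?_⟩, ?_⟩
  · rw [Subgroup.coe_one, one_mul]
    exact ht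
  · intro s hs
    have e : {g : H | g ∈ F' ∧ s * g ∉ F'} = ↑(F'.filter (fun g => s * g ∉ F')) := by
      ext g
      simp
    rw [e, Set.ncard_coe_finset]
    have h1 : (F'.filter (fun g => s * g ∉ F')).card
        ≤ ((F.filter (fun g => (s : G) * g ∉ F)).filter
          (fun g => (QuotientGroup.mk g⁻¹ : G ⧸ H) = q)).card := by
      apply Finset.card_le_card_of_injOn (fun h : H => (h : G) * t)
      · intro h hh
        rw [Finset.mem_coe, Finset.mem_filter] at hh
        rw [Finset.mem_coe, Finset.mem_filter, Finset.mem_filter]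
        refine ⟨⟨(hF' h).mp hh.1, ?_⟩, hqh h⟩
        intro h2
        apply hh.2
        rw [hF', Subgroup.coe_mul, mul_assoc]
        exact h2
      · exact hinj.injOn
    have h2 : (((F.filter (fun g => (s : G) * g ∉ F)).filter
          (fun g => (QuotientGroup.mk g⁻¹ : G ⧸ H) = q)).card : ℝ)
        ≤ ∑ s ∈ S, (((F.filter (fun g => (s : G) * g ∉ F)).filter
          (fun g => (QuotientGroup.mk g⁻¹ : G ⧸ H) = q)).card : ℝ) :=
      Finset.single_le_sum (f := fun s : H => (((F.filter (fun g => (s : G) * g ∉ F)).filter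
          (fun g => (QuotientGroup.mk g⁻¹ : G ⧸ H) = q)).card : ℝ))
        (fun i _ => Nat.cast_nonneg _) hs
    have h3 : ((F'.filter (fun g => s * g ∉ F')).card : ℝ)
        ≤ (((F.filter (fun g => (s : G) * g ∉ F)).filter
          (fun g => (QuotientGroup.mk g⁻¹ : G ⧸ H) = q)).card : ℝ) := by exact_mod_cast h1
    rw [hcard]
    exact (h3.trans h2).trans hle

end Pool.Agent.FGT.H44
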